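import Mathlib
import Pool.Agent.Lib.helper21.SparseConvex

/-! For every `N ≥ 1` and every `0 < p < 2` the strong maximum principle fails for potentials with
`V^{1/2} ∈ L^p`: a negative answer to both questions. -/

set_option autoImplicit false

namespace Pool.Agent.Results.MP_1d8377_an.Counter

open MeasureTheory Set Pool.Agent.Lib.Helper21.SparseConvex
open scoped ContDiff Laplacian

noncomputable section

def w (θ s : ℝ) : ℝ := ζ θ s * ζ θ (1 - s)
def w1 (θ s : ℝ) : ℝ := η θ s * ζ θ (1 - s) - ζ θ s * η θ (1 - s)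
def w2 (θ s : ℝ) : ℝ := h θ s * ζ θ (1 - s) - 2 * η θ s * η θ (1 - s) + ζ θ s * h θ (1 - s)
def m (θ s : ℝ) : ℝ := h θ s * ζ θ (1 - s) + ζ θ s * h θ (1 - s)

lemma cv {f : ℝ → ℝ} {a b x : ℝ} (hf : HasDerivAt f a x) (e : a = b) : HasDerivAt f b x := e ▸ hf

lemma dneg {f f' : ℝ → ℝ} (hf : ∀ s, HasDerivAt f (f' s) s) (s : ℝ) :
    HasDerivAt (fun s => f (1 - s)) (-f' (1 - s)) s :=
  cv ((hf (1 - s)).comp s ((hasDerivAt_id s).const_sub 1)) (by ring)

lemma dw (θ s : ℝ) : HasDerivAt (w θ) (w1 θ s) s :=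
  cv ((dζ θ s).mul (dneg (dζ θ) s)) (by unfold w1; ring)

lemma dw1 (θ s : ℝ) : HasDerivAt (w1 θ) (w2 θ s) s :=
  cv (((dη θ s).mul (dneg (dζ θ) s)).sub ((dζ θ s).mul (dneg (dη θ) s))) (by unfold w2; ring)

/-- continuous and vanishing outside `[0, 1]` -/
def Good (f : ℝ → ℝ) : Prop := Continuous f ∧ ∀ s, s ∉ Icc (0 : ℝ) 1 → f s = 0

lemma good_aux (θ : ℝ) {s : ℝ} (hs : s ∉ Icc (0 : ℝ) 1) :
    (h θ s = 0 ∧ η θ s = 0 ∧ ζ θ s = 0) ∨ (h θ (1 - s) = 0 ∧ η θ (1 - s) = 0 ∧ ζ θ (1 - s) = 0) := by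
  simp only [mem_Icc, not_and_or, not_le] at hs
  rcases hs with hs | hs
  · exact Or.inl ⟨h_neg θ hs.le, η_neg θ hs.le, ζ_neg θ hs.le⟩
  · exact Or.inr ⟨h_neg θ (by linarith), η_neg θ (by linarith), ζ_neg θ (by linarith)⟩

lemma good_w (θ : ℝ) : Good (w θ) := by
  have := ζ_cont θ
  refine ⟨by unfold w; fun_prop, fun s hs => ?_⟩
  rcases good_aux θ hs with ⟨a, b, c⟩ | ⟨a, b, c⟩ <;> simp [w, c]

lemma good_w1 (θ : ℝ) : Good (w1 θ) := by
  have := ζ_cont θ
  have := η_cont θ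
  refine ⟨by unfold w1; fun_prop, fun s hs => ?_⟩
  rcases good_aux θ hs with ⟨a, b, c⟩ | ⟨a, b, c⟩ <;> simp [w1, b, c]

lemma good_w2 (θ : ℝ) : Good (w2 θ) := by
  have := ζ_cont θ
  have := η_cont θ
  have := h_cont θ
  refine ⟨by unfold w2; fun_prop, fun s hs => ?_⟩
  rcases good_aux θ hs with ⟨a, b, c⟩ | ⟨a, b, c⟩ <;> simp [w2, a, b, c]

lemma good_m (θ : ℝ) : Good (m θ) := by
  have := ζ_cont θ
  have := h_cont θ
  refine ⟨by unfold m; fun_prop, fun s hs => ?_⟩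
  rcases good_aux θ hs with ⟨a, b, c⟩ | ⟨a, b, c⟩ <;> simp [m, a, c]

lemma w_nonneg (θ s : ℝ) : 0 ≤ w θ s := mul_nonneg (ζ_nonneg _ _) (ζ_nonneg _ _)

lemma w2_le (θ s : ℝ) : w2 θ s ≤ m θ s := by
  have := mul_nonneg (η_nonneg θ s) (η_nonneg θ (1 - s))
  unfold w2 m
  linarith

variable {N : ℕ}

def cube (N : ℕ) : Set (EuclideanSpace ℝ (Fin N)) := {x | ∀ j, x j ∈ Icc (0 : ℝ) 1}

lemma cube_compact : IsCompact (cube N) := by
  have e : cube N = (PiLp.continuousLinearEquiv 2 ℝ (fun _ : Fin N => ℝ)).toHomeomorph ⁻¹'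
      (Set.pi univ fun _ => Icc (0 : ℝ) 1) := by
    ext x
    simp [cube, Pi.le_def, forall_and]
  rw [e, Homeomorph.isCompact_preimage]
  exact isCompact_univ_pi fun _ => isCompact_Icc

def T (θ : ℝ) (f : ℝ → ℝ) (i : Fin N) (x : EuclideanSpace ℝ (Fin N)) : ℝ :=
  f (x i) * ∏ j ∈ Finset.univ.erase i, w θ (x j)

lemma T_zero (θ : ℝ) {f : ℝ → ℝ} (hf : Good f) (i : Fin N) {x : EuclideanSpace ℝ (Fin N)} (hx : x ∉ cube N) :
    T θ f i x = 0 := by
  simp only [cube, mem_setOf_eq, not_forall] at hx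
  obtain ⟨j, hj⟩ := hx
  unfold T
  by_cases e : j = i
  · subst e
    rw [hf.2 _ hj, zero_mul]
  · rw [Finset.prod_eq_zero (i := j) (by simp [e]) ((good_w θ).2 _ hj), mul_zero]

lemma T_cont (θ : ℝ) {f : ℝ → ℝ} (hf : Good f) (i : Fin N) : Continuous (T θ f i) := by
  have := hf.1
  have := (good_w θ).1
  unfold T
  fun_prop

lemma T_cs (θ : ℝ) {f : ℝ → ℝ} (hf : Good f) (i : Fin N) : HasCompactSupport (T θ f i) :=
  HasCompactSupport.intro cube_compact fun _ hx => T_zero θ hf i hx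

lemma T_int (θ : ℝ) {f : ℝ → ℝ} (hf : Good f) (i : Fin N) {g : EuclideanSpace ℝ (Fin N) → ℝ} (hg : Continuous g) :
    Integrable fun x => T θ f i x * g x :=
  ((T_cont θ hf i).mul hg).integrable_of_hasCompactSupport (T_cs θ hf i).mul_right

lemma T_line (θ : ℝ) {f f' : ℝ → ℝ} (hf : ∀ s, HasDerivAt f (f' s) s) (i : Fin N) (x : EuclideanSpace ℝ (Fin N)) :
    HasLineDerivAt ℝ (T θ f i) (T θ f' i x) x (EuclideanSpace.single i 1) := by
  unfold HasLineDerivAt
  have e : (fun t : ℝ => T θ f i (x + t • EuclideanSpace.single i (1 : ℝ))) =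
      fun t => f (x i + t) * ∏ j ∈ Finset.univ.erase i, w θ (x j) := by
    funext t
    unfold T
    congr 1
    · simp
    · refine Finset.prod_congr rfl fun j hj => ?_
      simp [Finset.ne_of_mem_erase hj]
  rw [e]
  refine cv (((hf (x i + 0)).comp (0 : ℝ) ((hasDerivAt_id (0 : ℝ)).const_add (x i))).mul_const _) ?_
  simp [T]

lemma ibp {f f' g g' : EuclideanSpace ℝ (Fin N) → ℝ} {v : EuclideanSpace ℝ (Fin N)}
    (h1 : Integrable fun x => f' x * g x) (h2 : Integrable fun x => f x * g' x) (h3 : Integrable fun x => f x * g x)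
    (hf : ∀ x, HasLineDerivAt ℝ f (f' x) x v) (hg : ∀ x, HasLineDerivAt ℝ g (g' x) x v) :
    ∫ x, f x * g' x = -∫ x, f' x * g x :=
  integral_bilinear_hasLineDerivAt_right_eq_neg_left_of_integrable (B := ContinuousLinearMap.mul ℝ ℝ) h1 h2 h3
    (fun x _ => hf x) (fun x _ => hg x)

lemma twice (θ : ℝ) (i : Fin N) {φ : EuclideanSpace ℝ (Fin N) → ℝ} (hφ : ContDiff ℝ ∞ φ) :
    Continuous (fun x => fderiv ℝ (fderiv ℝ φ) x (EuclideanSpace.single i 1) (EuclideanSpace.single i 1)) ∧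
    ∫ x, T θ (w θ) i x * fderiv ℝ (fderiv ℝ φ) x (EuclideanSpace.single i 1) (EuclideanSpace.single i 1) =
      ∫ x, T θ (w2 θ) i x * φ x := by
  have h1 : ContDiff ℝ ∞ (fderiv ℝ φ) := hφ.fderiv_right (m := ∞) (by simp)
  have h2 : Continuous (fderiv ℝ (fderiv ℝ φ)) := h1.continuous_fderiv (by simp)
  have c0 := hφ.continuous
  have c1 : Continuous fun x => fderiv ℝ φ x (EuclideanSpace.single i 1) := h1.continuous.clm_apply continuous_const
  have c2 : Continuous fun x => fderiv ℝ (fderiv ℝ φ) x (EuclideanSpace.single i 1) (EuclideanSpace.single i 1) :=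
    (h2.clm_apply continuous_const).clm_apply continuous_const
  refine ⟨c2, ?_⟩
  rw [ibp (T_int θ (good_w1 θ) i c1) (T_int θ (good_w θ) i c2) (T_int θ (good_w θ) i c1) (T_line θ (dw θ) i),
    ibp (T_int θ (good_w2 θ) i c0) (T_int θ (good_w1 θ) i c1) (T_int θ (good_w1 θ) i c0) (T_line θ (dw1 θ) i),
    neg_neg]
  · exact fun x => (hφ.differentiable (by simp) x).hasFDerivAt.hasLineDerivAt _
  · intro x
    have := ((ContinuousLinearMap.apply ℝ ℝ (EuclideanSpace.single i (1 : ℝ))).hasFDerivAt.comp x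
      (h1.differentiable (by simp) x).hasFDerivAt).hasLineDerivAt (EuclideanSpace.single i 1)
    exact this

def u (θ : ℝ) (x : EuclideanSpace ℝ (Fin N)) : ℝ := ∏ j, w θ (x j)

lemma u_eq (θ : ℝ) (i : Fin N) : (u θ : EuclideanSpace ℝ (Fin N) → ℝ) = T θ (w θ) i :=
  funext fun x => (Finset.mul_prod_erase Finset.univ (fun j => w θ (x j)) (Finset.mem_univ i)).symm

def V (θ : ℝ) (x : EuclideanSpace ℝ (Fin N)) : ℝ :=
  ∑ i, ((cube N).indicator (fun x => q θ (x i)) x + (cube N).indicator (fun x => q θ (1 - x i)) x)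

lemma V_nonneg (θ : ℝ) (x : EuclideanSpace ℝ (Fin N)) : 0 ≤ V θ x :=
  Finset.sum_nonneg fun _ _ => add_nonneg (indicator_nonneg (fun _ _ => q_nonneg _ _) _)
    (indicator_nonneg (fun _ _ => q_nonneg _ _) _)

lemma ind_meas {g : ℝ → ℝ} (hg : Measurable g) (i : Fin N) :
    Measurable ((cube N).indicator fun x => g (x i)) :=
  Measurable.indicator (by fun_prop) cube_compact.measurableSet

lemma V_meas (θ : ℝ) : Measurable (V θ : EuclideanSpace ℝ (Fin N) → ℝ) :=
  Finset.measurable_sum _ fun i _ => (ind_meas (q_meas θ) i).add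
    (ind_meas (g := fun s => q θ (1 - s)) ((q_meas θ).comp (by fun_prop)) i)

lemma Vu {θ : ℝ} (h0 : 0 < θ) (h1 : θ ≤ 1 / 2) (x : EuclideanSpace ℝ (Fin N)) :
    V θ x * u θ x = ∑ i, T θ (m θ) i x := by
  unfold V
  rw [Finset.sum_mul]
  refine Finset.sum_congr rfl fun i _ => ?_
  by_cases hx : x ∈ cube N
  · rw [indicator_of_mem hx, indicator_of_mem hx, u_eq θ i]
    unfold T w m
    rw [← q_mul h0 h1, ← q_mul h0 h1]
    ring
  · rw [indicator_of_notMem hx, indicator_of_notMem hx, T_zero θ (good_m θ) i hx]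
    ring

lemma ind_memLp {g : ℝ → ℝ} (hg : Measurable g) (g0 : ∀ s, 0 ≤ g s) {r : ℝ} (hr : 0 < r)
    (hi : Integrable fun s => g s ^ r) (i : Fin N) :
    MemLp ((cube N).indicator fun x => g (x i)) (ENNReal.ofReal r) := by
  rw [← integrable_norm_rpow_iff (ind_meas hg i).aestronglyMeasurable (by simpa using hr) (by simp),
    ENNReal.toReal_ofReal hr.le]
  let b : Fin N → ℝ → ℝ := fun j => (Icc (0 : ℝ) 1).indicator fun s => if j = i then g s ^ r else 1
  have hb : ∀ j, Integrable (b j) := by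
    intro j
    rw [integrable_indicator_iff measurableSet_Icc]
    by_cases e : j = i
    · simpa [e] using hi.integrableOn
    · simp [e]
  have := ((PiLp.volume_preserving_toLp (Fin N)).integrable_comp_emb
    (MeasurableEquiv.toLp 2 _).measurableEmbedding (g := fun x => ∏ j, b j (x j))).1 (Integrable.fintype_prod hb)
  refine this.congr (Filter.Eventually.of_forall fun x => ?_)
  by_cases hx : x ∈ cube N
  · simp only [indicator_of_mem hx, b]
    rw [Finset.prod_congr rfl fun j _ => indicator_of_mem (hx j) _, Real.norm_eq_abs, abs_of_nonneg (g0 _),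
      Finset.prod_ite_eq']
    simp
  · simp only [indicator_of_notMem hx, norm_zero, Real.zero_rpow hr.ne']
    simp only [cube, mem_setOf_eq, not_forall] at hx
    obtain ⟨j, hj⟩ := hx
    exact Finset.prod_eq_zero (Finset.mem_univ j) (indicator_of_notMem hj _)

end

theorem result (N : ℕ) (hN : 1 ≤ N) (p : ℝ) (hp0 : 0 < p) (hp2 : p < 2) :
    ∃ (Ω : Set (EuclideanSpace ℝ (Fin N))) (V u : EuclideanSpace ℝ (Fin N) → ℝ),
      IsOpen Ω ∧ IsConnected Ω ∧ Measurable V ∧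
      MemLp (fun x => √(max (V x) 0)) (ENNReal.ofReal p) (volume.restrict Ω) ∧
      IntegrableOn u Ω ∧ ContinuousOn u Ω ∧ (∀ x ∈ Ω, 0 ≤ u x) ∧ IntegrableOn (fun x => V x * u x) Ω ∧
      (∀ φ : EuclideanSpace ℝ (Fin N) → ℝ, ContDiff ℝ ∞ φ → HasCompactSupport φ → tsupport φ ⊆ Ω →
        (∀ x, 0 ≤ φ x) → ∫ x in Ω, u x * Δ φ x ≤ ∫ x in Ω, V x * u x * φ x) ∧
      IsCompact (tsupport u) ∧ tsupport u ⊆ Ω ∧ ∃ x ∈ Ω, u x ≠ 0 := by
  obtain ⟨θ, h0, h1, hi⟩ := exists_θ (r := p / 2) (by linarith) (by linarith)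
  let i0 : Fin N := ⟨0, hN⟩
  refine ⟨univ, V θ, u θ, isOpen_univ, isConnected_univ, V_meas θ, ?_, ?_, ?_, ?_, ?_, ?_, ?_, subset_univ _, ?_⟩
  · rw [Measure.restrict_univ]
    have hV : MemLp (V θ : EuclideanSpace ℝ (Fin N) → ℝ) (ENNReal.ofReal (p / 2)) :=
      memLp_finsetSum _ fun i _ => (ind_memLp (q_meas θ) (q_nonneg θ) (by linarith) hi i).add
        (ind_memLp (g := fun s => q θ (1 - s)) ((q_meas θ).comp (by fun_prop)) (fun _ => q_nonneg _ _)
          (by linarith) (hi.comp_sub_left 1) i)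
    have hm := V_meas (N := N) θ
    rw [← memLp_norm_rpow_iff (q := 2) (Measurable.aestronglyMeasurable (by fun_prop)) (by simp) (by simp)]
    rw [ENNReal.ofReal_div_of_pos (by norm_num), ENNReal.ofReal_ofNat] at hV
    refine (memLp_congr_ae (Filter.Eventually.of_forall fun x => ?_)).1 hV
    simp [Real.sq_sqrt, V_nonneg θ x]
  · rw [integrableOn_univ, u_eq θ i0]
    simpa using T_int θ (good_w θ) i0 (g := fun _ => 1) continuous_const
  · rw [u_eq θ i0]
    exact (T_cont θ (good_w θ) i0).continuousOn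
  · exact fun x _ => Finset.prod_nonneg fun j _ => w_nonneg _ _
  · rw [integrableOn_univ]
    simp only [Vu h0 h1]
    exact integrable_finsetSum _ fun i _ => by
      simpa using T_int θ (good_m θ) i (g := fun _ => 1) continuous_const
  · intro φ hφ _ _ hp
    simp only [Measure.restrict_univ, Vu h0 h1, Finset.sum_mul, Finset.mul_sum, iteratedFDeriv_two_apply,
      InnerProductSpace.laplacian_eq_iteratedFDeriv_orthonormalBasis φ (EuclideanSpace.basisFun (Fin N) ℝ),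
      Matrix.cons_val_zero, Matrix.cons_val_one, EuclideanSpace.basisFun_apply]
    rw [integral_finsetSum _ fun i _ => by
        rw [u_eq θ i]; exact T_int θ (good_w θ) i (twice θ i hφ).1,
      integral_finsetSum _ fun i _ => T_int θ (good_m θ) i hφ.continuous]
    refine Finset.sum_le_sum fun i _ => ?_
    rw [u_eq θ i, (twice θ i hφ).2]
    refine integral_mono (T_int θ (good_w2 θ) i hφ.continuous) (T_int θ (good_m θ) i hφ.continuous) fun x => ?_
    exact mul_le_mul_of_nonneg_right (mul_le_mul_of_nonneg_right (w2_le _ _)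
      (Finset.prod_nonneg fun j _ => w_nonneg _ _)) (hp x)
  · rw [u_eq θ i0]
    exact T_cs θ (good_w θ) i0
  · refine ⟨WithLp.toLp 2 fun _ => 1 / 2, mem_univ _, Finset.prod_ne_zero_iff.2 fun j _ => ?_⟩
    exact (mul_pos (ζ_pos h0 h1 (by norm_num)) (ζ_pos h0 h1 (by norm_num))).ne'

end Pool.Agent.Results.MP_1d8377_an.Counter
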